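import Pool.Agent.H288.HS.Fin2
import Pool.Agent.H288.HS.T.STEP
import Pool.Agent.H288.HS.T.REAL
import Pool.Agent.H288.HS.T.CLOSE
import Pool.Agent.H288.HS.T.INEQ
import Pool.Agent.H288.HS.T.CONST
import Pool.Agent.H288.HS.T.GIN
import Pool.Agent.H288.HS.T.DELSUM
import Pool.Agent.H288.HS.T.SUBD
import Pool.Agent.H288.HS.T.NULL
import Pool.Agent.H288.HS.T.LIM
import Pool.Agent.H288.HS.T.SER
import Pool.Agent.H288.HS.T.CONV
import Pool.Agent.H288.HS.T.UP
import Pool.Agent.H288.HS.T.FAM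
import Pool.Agent.H288.HS.T.PRESS
import Pool.Agent.H288.HS.T.ANA
import Pool.Agent.H288.HS.T.MONO
import Pool.Agent.H288.HS.T.INV
import Pool.Agent.H288.HS.T.CAN
import Pool.Agent.H288.HS.T.BV
import Pool.Agent.H288.HS.T.PAIRW
import Pool.Agent.H288.HS.T.ONEW
import Pool.Agent.H288.HS.T.NEARW
import Pool.Agent.H288.HS.T.INDW
import Pool.Agent.H288.HS.T.LOGDW
import Pool.Agent.H288.HS.T.FREEWQ
import Pool.Agent.H288.HS.T.LENSJ
import Pool.Agent.H288.HS.T.LENSWG
import Pool.Agent.H288.HS.T.TOTW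
import Pool.Agent.H288.HS.T.COLW
import Pool.Agent.H288.HS.T.INEQW
import Pool.Agent.H288.HS.T.GEOW
import Pool.Agent.H288.HS.Fin3
import Pool.Agent.H288.HS.T.LENSJ3
import Pool.Agent.H288.HS.T.LENSWG3
import Pool.Agent.H288.HS.T.RAD3
import Pool.Agent.H288.HS.T.CONE3
import Pool.Agent.H288.HS.T.TOTW3
import Pool.Agent.H288.HS.T.COLW3
import Pool.Agent.H288.HS.T.INEQW3
import Pool.Agent.H288.HS.T.GEOW3
import Pool.Agent.H288.HS.T.CHAIN
import Pool.Agent.H288.HS.T.PAIR
import Pool.Agent.H288.HS.T.ONE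
import Pool.Agent.H288.HS.T.NEAR
import Pool.Agent.H288.HS.T.IND
import Pool.Agent.H288.HS.T.LOGD
import Pool.Agent.H288.HS.T.FREE
import Pool.Agent.H288.HS.T.GEO
import Pool.Agent.H288.HS.T.LENSG
import Pool.Agent.H288.HS.T.LENSD
import Pool.Agent.H288.HS.T.LENS2
import Pool.Agent.H288.HS.T.LENS3
import Pool.Agent.H288.HS.T.COL2
import Pool.Agent.H288.HS.T.COL3
import Pool.Agent.H288.HS.T.COLD
import Pool.Agent.H288.HS.T.GGE
import Pool.Agent.H288.HS.Fin6
import Pool.Agent.H288.HS.T.LENSX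
import Pool.Agent.H288.BI.Free
import Pool.Agent.H288.BI.T.CAU
import Pool.Agent.H288.BI.T.MAP
import Pool.Agent.H288.BI.T.CMP
import Pool.Agent.H288.BI.T.DEP
import Pool.Agent.H288.BI.T.ASM

/-!
# MP_8e91ed_lc: hard spheres: the partition function from its first coefficients

For hard spheres of radius `a` in the cube `[0, L]^d` and for fixed activities `l < t / V`, where
`V` is the volume of the ball of radius `2a`, `t = 5.18...` for `d = 2`, `t = 3.77...` for `d = 3`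
and `t = e / (1 - q / 2)` for the other `d` (`q` is the volume of the intersection of two unit balls
whose centres are at distance `1`, divided by the volume of the unit ball), the logarithm of the grand
partition function is computed up to `ε` from its first `m + 1` coefficients `Z(Λ, 0), ..., Z(Λ, m)`,
`m ≥ C (1 + log (L^d / ε))`, by the arithmetic formula `appr` (about `m ^ 3` operations).

Proof: the partition functions have no zeros in a neighbourhood of `[0, l]`, uniformly in `L`, and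
their logarithmic derivatives there are at most `M L ^ d` (this is the proof of
`MP_09cbbd_mp.HardDisks`); interpolation (Barvinok): the function
`φ(z) = - (1/κ) log (1 - (1 - e^{-κ}) z)` maps a disc of radius `β > 1` to this neighbourhood, and
`appr` is the Taylor polynomial at `0`, evaluated at `1`, of `log Z(l φ(z))`.
-/

set_option autoImplicit false

open Pool.Agent.H288.HS Pool.Agent.H288.BI

namespace Pool.Agent.Results.MP_8e91ed_lc.HardSphereInterpolation

/-- **Main theorem.** `Grand d a L l = ∑_N Zpart d a L N * l ^ N` is the grand partition function of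
hard spheres of radius `a` in the cube of side `L`. The approximation `appr κ l (Zpart d a L) m` of
its logarithm uses only the coefficients `Zpart d a L N`, `N ≤ m`. -/
theorem result :
    (∀ (κ l : ℝ) (z z' : ℕ → ℝ) (m : ℕ), (∀ j ≤ m, z j = z' j) → appr κ l z m = appr κ l z' m) ∧
    ∀ d : ℕ, 1 ≤ d → ∀ a : ℝ, 0 < a → ∀ l₁ : ℝ, 0 < l₁ → l₁ * exclVol d a < tmx d →
      ∃ κ : ℝ, 0 < κ ∧ ∃ C : ℝ, 0 < C ∧ ∀ L : ℝ, 1 ≤ L → ∀ l : ℝ, 0 ≤ l → l ≤ l₁ →
        ∀ ε : ℝ, 0 < ε → ε < 1 → ∀ m : ℕ, C * (1 + Real.log (L ^ d / ε)) ≤ m →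
          |Real.log (Grand d a L l) - appr κ l (Zpart d a L) m| ≤ ε := by
  have hstep : S_STEP := t_STEP
  have hreal : S_REAL := t_REAL hstep
  have hone : S_ONEW := t_ONEW hstep t_INEQ
  have hnear : S_NEARW := t_NEARW hreal t_CLOSE
  have hmain : S_MAINW := t_INDW hstep t_PAIRW hone hnear t_CONST
  have hcore : S_COREW := t_LOGDW hstep hmain
  have hlim : S_LIM := t_LIM t_NULL
  have hup : S_UP := t_UP t_CONV
  have hfree : S_FREEW := t_FREEWQ hlim t_SER t_SUM hcore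
  have hfam : S_FAM := t_FAM hlim t_SER t_SUM hup t_GIN t_DEL t_SUBD
  have hgeo := t_GEOW hup t_BV t_LENSJ t_LENSWG t_TOTW t_COLW t_INEQW
  have hgeo3 := t_GEOW3 hup t_BV t_LENSJ3 t_LENSWG3 (t_TOTW3 t_RAD3) (t_COLW3 t_CONE3 t_RAD3)
    t_INEQW3
  have hmain0 : S_MAIN := t_IND hstep t_PAIR (t_ONE (t_CHAIN hstep) t_INEQ)
    (t_NEAR hreal t_CLOSE) t_CONST
  have hfree0 : S_FREE := t_FREE hlim t_SER t_SUM (t_LOGD hstep hmain0)
  have hall : AllS := ⟨t_BV, hfam, hfree0, t_PRESS, t_ANA, t_MONO, t_INV, t_CAN,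
    t_GEOQ t_LENSG hup, t_LENSD, t_LENS2, t_LENS3, t_COL2 t_CONV, t_COL3 t_CONV, t_COLD, t_GGE⟩
  refine ⟨t_DEP, ?_⟩
  intro d hd a ha l₁ hl hlt
  have hR : 0 < 2 * a := by positivity
  have hex : exclVol d a = bv d (2 * a) := (t_BV d (2 * a) hd hR).1.symm
  rw [hex] at hlt
  obtain ⟨ε₀, hε₀, M, hM, hF⟩ := free_all hall hfree t_LENSX hgeo hgeo3 d hd (2 * a) hR l₁ hl hlt
  have hfd := hfam d (2 * a) hd hR
  obtain ⟨κ, hκ, C, hC, h⟩ := t_ASM t_CAU t_MAP t_CMP d (zz d (2 * a)) l₁ ε₀ M hl hε₀ hM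
    (fun L hL => ⟨hfd.zero L hL, fun k => ⟨hfd.nonneg L hL k, fam_le hfd L hL k⟩⟩) hF
  refine ⟨κ, hκ, C, hC, fun L hL l hl0 hl1 ε h0 h1 m hm => ?_⟩
  have h2 := h L hL l hl0 hl1 ε h0 h1 m hm
  have h3 : Grand d a L l = ZM (zz d (2 * a)) L 0 l := by
    have hz : ∀ N, Zpart d a L N = zz d (2 * a) L N := fun _ => rfl
    simp only [Grand, ZM, hz, pow_zero, one_mul]
  rw [h3]
  exact h2

end Pool.Agent.Results.MP_8e91ed_lc.HardSphereInterpolation
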